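import Pool.Agent.Helper74.TZ.Fin
import Pool.Agent.Helper74.TZ.Exa

set_option autoImplicit false

namespace Pool.Agent.Results.MP_3e2a6c_co.DegreeThreeLinear

/-- `T` is a transversal of the hypergraph with edge set `E`: it meets every edge. -/
def IsTransversal {X : Type} (E : Finset (Finset X)) (T : Finset X) : Prop :=
  ∀ e ∈ E, ∃ x ∈ T, x ∈ e

/-- The transversal number: the least number of vertices in a transversal. -/
noncomputable def tau {X : Type} (E : Finset (Finset X)) : ℕ :=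
  sInf {t : ℕ | ∃ T : Finset X, IsTransversal E T ∧ T.card = t}

/-- All edges have `k` vertices and all vertices are in at most three edges. -/
def IsCubic {X : Type} [DecidableEq X] (k : ℕ) (E : Finset (Finset X)) : Prop :=
  (∀ e ∈ E, e.card = k) ∧ ∀ x, (E.filter fun e => x ∈ e).card ≤ 3

/-- there are hypergraphs of the class with the given order, size and transversal number -/
def Attained (k n m t : ℕ) : Prop :=
  ∃ (X : Type) (_ : Fintype X) (_ : DecidableEq X) (E : Finset (Finset X)),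
    IsCubic k E ∧ Fintype.card X = n ∧ E.card = m ∧ tau E = t

/-- The ratios `τ(H) / (n_H + m_H)` of the `k`-uniform hypergraphs `H` in which every vertex lies
in at most three edges. -/
def Ratios (k : ℕ) : Set ℝ :=
  {r : ℝ | ∃ (X : Type) (_ : Fintype X) (_ : DecidableEq X) (E : Finset (Finset X)),
    Nonempty X ∧ IsCubic k E ∧
      r = (tau E : ℝ) / ((Fintype.card X : ℝ) + (E.card : ℝ))}

theorem tau_le {X : Type} [Fintype X] [DecidableEq X] {k : ℕ} {a b : ℚ}
    (h : Helper74.TZ.Lin X k 3 a b) {E : Finset (Finset X)} (hE : IsCubic k E) :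
    (tau E : ℝ) ≤ (a : ℝ) * (Fintype.card X : ℝ) + (b : ℝ) * (E.card : ℝ) := by
  obtain ⟨T, -, hT, hTc⟩ := h (Finset.univ : Finset X) E
    (fun e he => ⟨Finset.subset_univ _, hE.1 e he⟩) (fun x _ => hE.2 x)
  have h1 : tau E ≤ T.card := Nat.sInf_le ⟨T, hT, rfl⟩
  rw [Finset.card_univ] at hTc
  have h3 := (Rat.cast_le (K := ℝ)).2 hTc
  push_cast at h3
  exact (Nat.cast_le.2 h1).trans h3

theorem le_tau {X : Type} [Fintype X] [DecidableEq X] {k t : ℕ} (hk : 1 ≤ k)
    {E : Finset (Finset X)} (hE : IsCubic k E)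
    (h : ∀ T : Finset X, (∀ e ∈ E, ∃ x ∈ T, x ∈ e) → t ≤ T.card) : t ≤ tau E := by
  refine le_csInf ⟨_, Finset.univ, ?_, rfl⟩ ?_
  · intro e he
    obtain ⟨x, hx⟩ := Finset.card_pos.1 (by rw [hE.1 e he]; omega : 0 < e.card)
    exact ⟨x, Finset.mem_univ x, hx⟩
  · rintro t ⟨T, hT', rfl⟩
    exact h T hT'

/-- For every `k ≥ 5` the largest value of `τ(H) / (n_H + m_H)` over the `k`-uniform hypergraphs
with maximum degree at most three is `3 / (2 (k + 3))`. -/
theorem greatest (k : ℕ) (hk : 5 ≤ k) : IsGreatest (Ratios k) (3 / (2 * ((k : ℝ) + 3))) := by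
  have hup : ∀ (X : Type) [Fintype X] [DecidableEq X] (E : Finset (Finset X)),
      IsCubic k E →
      (tau E : ℝ) ≤ 3 / (2 * ((k : ℝ) + 3)) * ((Fintype.card X : ℝ) + (E.card : ℝ)) := by
    intro X _ _ E hE
    obtain ⟨T, -, hT, hTc⟩ := Helper74.TZ.lin_deg3 hk (Finset.univ : Finset X) E
      (fun e he => ⟨Finset.subset_univ _, hE.1 e he⟩) (fun x _ => hE.2 x)
    have h1 : tau E ≤ T.card := Nat.sInf_le ⟨T, hT, rfl⟩
    rw [Finset.card_univ, ← mul_add] at hTc
    have h2 : (T.card : ℝ) ≤ 3 / (2 * ((k : ℝ) + 3)) * ((Fintype.card X : ℝ) + (E.card : ℝ)) := by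
      have h3 := (Rat.cast_le (K := ℝ)).2 hTc
      push_cast at h3
      exact h3
    exact (Nat.cast_le.2 h1).trans h2
  have hk0 : (0 : ℝ) < (k : ℝ) + 3 := by positivity
  constructor
  · obtain ⟨X, hX, hX', E, hne, hE, hD, hn, hm, hT⟩ := Helper74.TZ.exa (k := k) (by omega)
    refine ⟨X, hX, hX', E, hne, ⟨hE, hD⟩, ?_⟩
    have h1 := hup X E ⟨hE, hD⟩
    have h2 : 3 ≤ tau E := le_tau (by omega) ⟨hE, hD⟩ hT
    have h3 : (3 : ℝ) ≤ tau E := by exact_mod_cast h2
    rw [hn, hm] at h1 ⊢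
    push_cast at h1 ⊢
    have h4 : 3 / (2 * ((k : ℝ) + 3)) * (2 * (k : ℝ) + 6) = 3 := by
      field_simp
      ring
    rw [h4] at h1
    rw [le_antisymm h1 h3]
    congr 1
    ring
  · rintro r ⟨X, hX, hX', E, hne, hE, rfl⟩
    have h1 := hup X E hE
    have h2 : (0 : ℝ) < (Fintype.card X : ℝ) + (E.card : ℝ) := by
      have : (0 : ℝ) < Fintype.card X := by exact_mod_cast Fintype.card_pos
      positivity
    rw [div_le_iff₀ h2]
    exact h1

/-- Let `k ≥ 5`. For the `k`-uniform hypergraphs with maximum degree at most three the largest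
value of `τ / (n + m)` is `3 / (2 (k + 3))`. All of them have `τ ≤ n / k + m / 6`, and
`τ ≤ n / (k + 1) + (k + 3) m / (6 (k + 1))` for odd `k`; the first bound for even `k` and the
second one for odd `k` are attained with `(m, τ) = (6, 3)` and with `(m, τ) = (3, 2)`. -/
theorem result (k : ℕ) (hk : 5 ≤ k) :
    IsGreatest (Ratios k) (3 / (2 * ((k : ℝ) + 3))) ∧
    (∀ (X : Type) [Fintype X] [DecidableEq X] (E : Finset (Finset X)), IsCubic k E →
      (tau E : ℝ) ≤ (Fintype.card X : ℝ) / (k : ℝ) + (E.card : ℝ) / 6) ∧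
    (Odd k → ∀ (X : Type) [Fintype X] [DecidableEq X] (E : Finset (Finset X)), IsCubic k E →
      (tau E : ℝ) ≤ (Fintype.card X : ℝ) / ((k : ℝ) + 1) +
          ((k : ℝ) + 3) * (E.card : ℝ) / (6 * ((k : ℝ) + 1))) ∧
    Attained k (2 * k) 6 3 ∧
    (Even k → Attained k (3 * k / 2) 3 2) ∧
    (Odd k → Attained k ((3 * k + 1) / 2) 3 2) := by
  have hk0 : (0 : ℝ) < k := by positivity
  have up0 : ∀ (X : Type) [Fintype X] [DecidableEq X] (E : Finset (Finset X)), IsCubic k E →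
      (tau E : ℝ) ≤ (Fintype.card X : ℝ) / (k : ℝ) + (E.card : ℝ) / 6 := by
    intro X _ _ E hE
    have h1 := tau_le (Helper74.TZ.lin_even hk) hE
    push_cast at h1
    refine h1.trans (le_of_eq ?_)
    ring
  have up1 : Odd k → ∀ (X : Type) [Fintype X] [DecidableEq X] (E : Finset (Finset X)),
      IsCubic k E → (tau E : ℝ) ≤ (Fintype.card X : ℝ) / ((k : ℝ) + 1) +
        ((k : ℝ) + 3) * (E.card : ℝ) / (6 * ((k : ℝ) + 1)) := by
    intro hodd X _ _ E hE
    have h1 := tau_le (Helper74.TZ.lin_odd hk hodd) hE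
    push_cast at h1
    refine h1.trans (le_of_eq ?_)
    ring
  have at6 : Attained k (2 * k) 6 3 := by
    obtain ⟨X, hX, hX', E, hne, hE, hD, hn, hm, hT⟩ := Helper74.TZ.exa (k := k) (by omega)
    refine ⟨X, hX, hX', E, ⟨hE, hD⟩, hn, hm, le_antisymm ?_ (le_tau (by omega) ⟨hE, hD⟩ hT)⟩
    have h1 := up0 X E ⟨hE, hD⟩
    rw [hn, hm] at h1
    push_cast at h1
    have h2 : 2 * (k : ℝ) / k + 6 / 6 = 3 := by
      field_simp
      norm_num
    rw [h2] at h1
    exact_mod_cast h1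
  obtain ⟨X, hX, hX', E, hne, hE, hD, hn, hm, hT⟩ := Helper74.TZ.exb (k := k) (by omega)
  have hge := le_tau (by omega) ⟨hE, hD⟩ hT
  refine ⟨greatest k hk, up0, up1, at6,
    fun he => ⟨X, hX, hX', E, ⟨hE, hD⟩, ?_, hm, le_antisymm ?_ hge⟩,
    fun hodd => ⟨X, hX, hX', E, ⟨hE, hD⟩, hn, hm, le_antisymm ?_ hge⟩⟩
  · obtain ⟨r, hr⟩ := he
    rw [hn]
    omega
  · have h1 := up0 X E ⟨hE, hD⟩
    have hn' : ((Fintype.card X : ℕ) : ℝ) = 3 * k / 2 := by
      obtain ⟨r, hr⟩ := he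
      have h2 : 2 * Fintype.card X = 3 * k := by rw [hn]; omega
      have h3 : (2 : ℝ) * (Fintype.card X : ℝ) = 3 * k := by exact_mod_cast h2
      linarith
    rw [hn', hm] at h1
    have h2 : 3 * (k : ℝ) / 2 / k + ((3 : ℕ) : ℝ) / 6 = 2 := by
      push_cast
      field_simp
      norm_num
    rw [h2] at h1
    exact_mod_cast h1
  · have h1 := up1 hodd X E ⟨hE, hD⟩
    have hn' : ((Fintype.card X : ℕ) : ℝ) = (3 * k + 1) / 2 := by
      obtain ⟨r, hr⟩ := hodd
      have h2 : 2 * Fintype.card X = 3 * k + 1 := by rw [hn]; omega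
      have h3 : (2 : ℝ) * (Fintype.card X : ℝ) = 3 * k + 1 := by exact_mod_cast h2
      linarith
    rw [hn', hm] at h1
    have h2 : (3 * (k : ℝ) + 1) / 2 / (k + 1) + (k + 3) * ((3 : ℕ) : ℝ) / (6 * (k + 1)) = 2 := by
      push_cast
      field_simp
      ring
    rw [h2] at h1
    exact_mod_cast h1

end Pool.Agent.Results.MP_3e2a6c_co.DegreeThreeLinear
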