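import Pool.Agent.Helper34.C5.Fin5
import Pool.Agent.Helper34.C5T.Ten
import Pool.Agent.Helper28.C5.Dbk2
import Pool.Agent.Helper74.C5.One

set_option autoImplicit false

namespace Pool.Agent.Results.MP_3e2a6c_co.TuzaFive

/-- `T` is a transversal of the hypergraph with edge set `E`: it meets every edge. -/
def IsTransversal {X : Type} (E : Finset (Finset X)) (T : Finset X) : Prop :=
  ∀ e ∈ E, ∃ x ∈ T, x ∈ e

/-- The transversal number: the least number of vertices in a transversal. -/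
noncomputable def tau {X : Type} (E : Finset (Finset X)) : ℕ :=
  sInf {t : ℕ | ∃ T : Finset X, IsTransversal E T ∧ T.card = t}

/-- The numbers `τ(H) / (n_H + m_H)` of the `k`-uniform hypergraphs `H` (with a nonempty finite
vertex set). -/
def Ratios (k : ℕ) : Set ℝ :=
  {r : ℝ | ∃ (X : Type) (_ : Fintype X) (E : Finset (Finset X)),
    Nonempty X ∧ (∀ e ∈ E, e.card = k) ∧
      r = (tau E : ℝ) / ((Fintype.card X : ℝ) + (E.card : ℝ))}

/-- The Tuza constant `c_k`. -/
noncomputable def tuza (k : ℕ) : ℝ := sSup (Ratios k)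

theorem sl : Helper34.C5.SL :=
  Helper34.C5.sl_of (Helper20.C5.c34v_of
    (fun _ _ _ _ _ _ _ h he => Helper34.C5T.ten h.sys h.con h.tf h.nD he (h.ten he).1.le)
    (fun _ _ _ _ _ _ _ h he _ _ _ h1 => h.no1 he h1) Helper28.C5.dbk2)

/-- **The Tuza constant `c_5` is `3 / 16`**, and the supremum is attained. -/
theorem result : tuza 5 = 3 / 16 ∧ (3 / 16 : ℝ) ∈ Ratios 5 :=
  ⟨Helper34.C5.tuza_eq sl, (Helper34.C5.tuza5 sl).1⟩

end Pool.Agent.Results.MP_3e2a6c_co.TuzaFive
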