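import Pool.Agent.Helper74.TZ.Fin

set_option autoImplicit false

namespace Pool.Agent.Results.MP_3e2a6c_co.UpperBound

/-- `T` is a transversal of the hypergraph with edge set `E`: it meets every edge. -/
def IsTransversal {X : Type} (E : Finset (Finset X)) (T : Finset X) : Prop :=
  ∀ e ∈ E, ∃ x ∈ T, x ∈ e

/-- The transversal number: the least number of vertices in a transversal. -/
noncomputable def tau {X : Type} (E : Finset (Finset X)) : ℕ :=
  sInf {t : ℕ | ∃ T : Finset X, IsTransversal E T ∧ T.card = t}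

/-- The Tuza constant `c_k`: the supremum of `τ(H) / (n_H + m_H)` over the `k`-uniform hypergraphs
`H` (with a nonempty finite vertex set). -/
noncomputable def tuza (k : ℕ) : ℝ :=
  sSup {r : ℝ | ∃ (X : Type) (_ : Fintype X) (E : Finset (Finset X)),
    Nonempty X ∧ (∀ e ∈ E, e.card = k) ∧
      r = (tau E : ℝ) / ((Fintype.card X : ℝ) + (E.card : ℝ))}

/-- The number `β(k, 4)` (with the value `7 / 34` for `k = 5`, which is not used below). -/
noncomputable def betaFour (k : ℕ) : ℝ :=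
  if k = 5 then 7 / 34 else if Even k then (3 * (k : ℝ) - 4) / (2 * (6 * (k : ℝ) - 3))
    else 3 * ((k : ℝ) - 1) / (2 * (6 * (k : ℝ) - 1))

/-- The number `β(k, d) = β(k, 4) * ∏_{4 ≤ j < d} j (k - 1) / (j (k - 1) + k)`. -/
noncomputable def beta (k d : ℕ) : ℝ :=
  betaFour k * ∏ j ∈ Finset.Ico 4 d,
    ((j : ℝ) * ((k : ℝ) - 1) / ((j : ℝ) * ((k : ℝ) - 1) + (k : ℝ)))

theorem beta_eq (k d : ℕ) : beta k (d + 4) = ((Helper74.TZ.beta k d : ℚ) : ℝ) := by
  induction d with
  | zero =>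
    show betaFour k * ∏ j ∈ Finset.Ico 4 (0 + 4), _ = ((Helper74.TZ.beta4 k : ℚ) : ℝ)
    rw [zero_add, Finset.Ico_self, Finset.prod_empty, mul_one]
    unfold betaFour Helper74.TZ.beta4
    split_ifs <;> push_cast <;> rfl
  | succ d ih =>
    have h1 : beta k (d + 1 + 4) = beta k (d + 4) * (((d + 4 : ℕ) : ℝ) * ((k : ℝ) - 1) /
        (((d + 4 : ℕ) : ℝ) * ((k : ℝ) - 1) + (k : ℝ))) := by
      unfold beta
      rw [show d + 1 + 4 = (d + 4) + 1 by ring, Finset.prod_Ico_succ_top (by omega), mul_assoc]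
    rw [h1, ih]
    show _ = ((Helper74.TZ.beta k d * (((d : ℚ) + 4) * (k - 1) / (((d : ℚ) + 4) * (k - 1) + k)) :
      ℚ) : ℝ)
    push_cast
    rfl

theorem tau_le {k : ℕ} (hk : 5 ≤ k) (d : ℕ) {c : ℝ} (h1 : 1 ≤ ((d : ℝ) + 6) * c)
    (h2 : 1 - ((d : ℝ) + 4) * beta k (d + 4) ≤ c)
    (h3 : ((k : ℝ) - ((d : ℝ) + 4) * (k - 1) * beta k (d + 4)) / (k + d + 4) ≤ c) : tuza k ≤ c := by
  classical
  have hk0 : (5 : ℝ) ≤ k := by exact_mod_cast hk
  have hc : 0 ≤ c := by
    by_contra hcon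
    have : ((d : ℝ) + 6) * c < 0 := mul_neg_of_pos_of_neg (by positivity) (not_le.1 hcon)
    linarith
  -- it is enough to treat rational numbers above `c`
  apply le_of_forall_gt_imp_ge_of_dense
  intro c' hc'
  obtain ⟨q, hq1, hq2⟩ := exists_rat_btwn hc'
  refine le_trans ?_ hq2.le
  rw [beta_eq] at h2 h3
  have hq0 : 0 < q := by exact_mod_cast hc.trans_lt hq1
  have g1 : 1 ≤ ((d : ℚ) + 6) * q := by
    have : (1 : ℝ) ≤ ((d : ℝ) + 6) * (q : ℝ) :=
      h1.trans (mul_le_mul_of_nonneg_left hq1.le (by positivity))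
    exact_mod_cast this
  have g2 : 1 - ((d : ℚ) + 4) * Helper74.TZ.beta k d ≤ q := by
    have := h2.trans hq1.le
    exact_mod_cast this
  have g3 : ((k : ℚ) - ((d : ℚ) + 4) * (k - 1) * Helper74.TZ.beta k d) / (k + d + 4) ≤ q := by
    have := h3.trans hq1.le
    exact_mod_cast this
  apply Real.sSup_le
  · rintro r ⟨X, hX, E, hne, hE, rfl⟩
    obtain ⟨T, -, hT, hTc⟩ := Helper74.TZ.lin_final hk d g1 g2 g3 (Finset.univ : Finset X) E
      (fun e he => ⟨Finset.subset_univ _, hE e he⟩)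
    have h4 : tau E ≤ T.card := Nat.sInf_le ⟨T, hT, rfl⟩
    rw [Finset.card_univ, ← mul_add] at hTc
    have h5 : (T.card : ℝ) ≤ (q : ℝ) * ((Fintype.card X : ℝ) + (E.card : ℝ)) := by
      exact_mod_cast hTc
    have h6 : (0 : ℝ) < (Fintype.card X : ℝ) + (E.card : ℝ) := by
      have : (0 : ℝ) < Fintype.card X := by exact_mod_cast Fintype.card_pos
      positivity
    rw [div_le_iff₀ h6]
    exact (Nat.cast_le.2 h4).trans h5
  · exact_mod_cast hq0.le

/-- An upper bound for every Tuza constant `c_k` with `k ≥ 6`, with the first values. -/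
theorem result :
    (∀ k d : ℕ, 6 ≤ k → 4 ≤ d → tuza k ≤ max (1 / ((d : ℝ) + 2)) (max (1 - (d : ℝ) * beta k d)
      (((k : ℝ) - (d : ℝ) * ((k : ℝ) - 1) * beta k d) / ((k : ℝ) + (d : ℝ))))) ∧
    tuza 6 ≤ 29 / 165 ∧ tuza 7 ≤ 2417 / 15252 ∧ tuza 8 ≤ 158 / 1053 := by
  have main : ∀ k d : ℕ, 5 ≤ k → 4 ≤ d → tuza k ≤ max (1 / ((d : ℝ) + 2))
      (max (1 - (d : ℝ) * beta k d)
      (((k : ℝ) - (d : ℝ) * ((k : ℝ) - 1) * beta k d) / ((k : ℝ) + (d : ℝ)))) := by
    intro k d hk hd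
    obtain ⟨e, rfl⟩ : ∃ e, d = e + 4 := ⟨d - 4, by omega⟩
    apply tau_le hk e
    · have h1 : 1 / ((((e + 4 : ℕ) : ℝ)) + 2) ≤ _ := le_max_left (1 / ((((e + 4 : ℕ) : ℝ)) + 2))
        (max (1 - ((e + 4 : ℕ) : ℝ) * beta k (e + 4))
          (((k : ℝ) - ((e + 4 : ℕ) : ℝ) * ((k : ℝ) - 1) * beta k (e + 4)) /
            ((k : ℝ) + ((e + 4 : ℕ) : ℝ))))
      have h2 : (0 : ℝ) < (e : ℝ) + 6 := by positivity
      have h3 : (((e + 4 : ℕ) : ℝ)) + 2 = (e : ℝ) + 6 := by push_cast; ring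
      have h4 := mul_le_mul_of_nonneg_left h1 h2.le
      have h5 : ((e : ℝ) + 6) * (1 / ((((e + 4 : ℕ) : ℝ)) + 2)) = 1 := by
        rw [h3, mul_one_div, div_self h2.ne']
      linarith
    · refine le_trans (le_of_eq ?_) (le_trans (le_max_left _ _) (le_max_right _ _))
      push_cast
      ring
    · refine le_trans (le_of_eq ?_) (le_trans (le_max_right _ _) (le_max_right _ _))
      push_cast
      ring_nf
  refine ⟨fun k d hk hd => main k d (by omega) hd, ?_, ?_, ?_⟩
  · refine (main 6 4 (by norm_num) (by norm_num)).trans ?_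
    have hb : beta 6 4 = 7 / 33 := by
      unfold beta betaFour
      rw [Finset.Ico_self, Finset.prod_empty, if_neg (by norm_num), if_pos (by decide)]
      norm_num
    rw [hb]
    refine max_le ?_ (max_le ?_ ?_) <;> norm_num
  · refine (main 7 5 (by norm_num) (by norm_num)).trans ?_
    have hb : beta 7 5 = 216 / 1271 := by
      unfold beta betaFour
      rw [show (5 : ℕ) = 4 + 1 by norm_num, Finset.prod_Ico_succ_top (by norm_num), Finset.Ico_self,
        Finset.prod_empty, if_neg (by norm_num), if_neg (by decide)]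
      norm_num
    rw [hb]
    refine max_le ?_ (max_le ?_ ?_) <;> norm_num
  · refine (main 8 5 (by norm_num) (by norm_num)).trans ?_
    have hb : beta 8 5 = 56 / 324 := by
      unfold beta betaFour
      rw [show (5 : ℕ) = 4 + 1 by norm_num, Finset.prod_Ico_succ_top (by norm_num), Finset.Ico_self,
        Finset.prod_empty, if_neg (by norm_num), if_pos (by decide)]
      norm_num
    rw [hb]
    refine max_le ?_ (max_le ?_ ?_) <;> norm_num

end Pool.Agent.Results.MP_3e2a6c_co.UpperBound
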